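import Mathlib

/-!
# No forest of a left-right pair has a rootless component

For every subfield `K ⊄ ℝ` of `ℂ` and every left-right pair `(L, R)` in `SL₂(ℕ₀)` every connected
component of the forest `𝓕(L, R)` contains an orphan.  So the answer to the question: which
left-right pairs have a rootless component, is: none.

The proof is quantitative: for an arbitrary set `S` of non-identity matrices of `SL₂(ℕ₀)`, a point
`z = x + i y` of the open first quadrant cannot be written as `T₁ (T₂ (⋯ Tₙ (w)))` with `T_j ∈ S` and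
`w` in the open first quadrant, unless `n < x + (1 + x) / (2 y)`.
-/

namespace Pool.Agent.Results.MP_b00f03_nt.NoRootlessTree

/-- `2 × 2` matrices with entries in `ℕ₀` -/
abbrev Mat := Matrix (Fin 2) (Fin 2) ℕ

/-- The matrix has determinant one, i.e. it lies in `SL₂(ℕ₀)`. -/
def IsSL (T : Mat) : Prop := T 0 0 * T 1 1 = T 0 1 * T 1 0 + 1

/-- The fractional linear action `T (z) = (a z + b) / (c z + d)`. -/
noncomputable def act (T : Mat) (z : ℂ) : ℂ :=
  ((T 0 0 : ℂ) * z + (T 0 1 : ℂ)) / ((T 1 0 : ℂ) * z + (T 1 1 : ℂ))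

/-- `𝓓₀ = {x + i y ∈ K : x > 0, y > 0}`. -/
def D0 (K : Subfield ℂ) : Set ℂ := {z | z ∈ K ∧ 0 < z.re ∧ 0 < z.im}

/-- `(L, R)` is a left-right pair (with respect to the field `K`). -/
structure LeftRightPair (K : Subfield ℂ) (L R : Mat) : Prop where
  slL : IsSL L
  slR : IsSL R
  neL : L ≠ 1
  neR : R ≠ 1
  disj : Disjoint (act L '' D0 K) (act R '' D0 K)

/-- The edges `w → L (w)` and `w → R (w)` of the directed graph `𝓕(L, R)` with vertex set `𝓓₀`:
`w` is the parent of `z`. -/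
def Edge (K : Subfield ℂ) (L R : Mat) (w z : D0 K) : Prop :=
  (z : ℂ) = act L w ∨ (z : ℂ) = act R w

/-- An orphan is a vertex without parent. -/
def Orphan (K : Subfield ℂ) (L R : Mat) (z : D0 K) : Prop := ∀ w, ¬ Edge K L R w z

/-- The underlying undirected graph of `𝓕(L, R)`; its connected components are the components
of `𝓕(L, R)`. -/
def forest (K : Subfield ℂ) (L R : Mat) : SimpleGraph (D0 K) := SimpleGraph.fromRel (Edge K L R)

/-- A component is rootless if it contains no orphan. -/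
def Rootless (K : Subfield ℂ) (L R : Mat) (C : (forest K L R).ConnectedComponent) : Prop :=
  ∀ z ∈ C.supp, ¬ Orphan K L R z

/-- `z = T₁ (T₂ (⋯ Tₙ (w)))` with `T₁, …, Tₙ ∈ S`. -/
def Desc (S : Set Mat) : ℕ → ℂ → ℂ → Prop
  | 0, z, w => z = w
  | n + 1, z, w => ∃ T ∈ S, ∃ v : ℂ, z = act T v ∧ Desc S n v w

/-- the sum of the entries -/
def tot (T : Mat) : ℕ := T 0 0 + T 0 1 + T 1 0 + T 1 1

theorem isSL_one : IsSL 1 := by simp [IsSL]

theorem mul_entries (A B : Mat) :
    (A * B) 0 0 = A 0 0 * B 0 0 + A 0 1 * B 1 0 ∧ (A * B) 0 1 = A 0 0 * B 0 1 + A 0 1 * B 1 1 ∧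
    (A * B) 1 0 = A 1 0 * B 0 0 + A 1 1 * B 1 0 ∧ (A * B) 1 1 = A 1 0 * B 0 1 + A 1 1 * B 1 1 := by
  simp [Matrix.mul_apply, Fin.sum_univ_two]

theorem IsSL.mul {A B : Mat} (hA : IsSL A) (hB : IsSL B) : IsSL (A * B) := by
  obtain ⟨h1, h2, h3, h4⟩ := mul_entries A B
  unfold IsSL at *
  rw [h1, h2, h3, h4]
  zify at *
  linear_combination (B 0 0 * B 1 1 - B 0 1 * B 1 0 : ℤ) * hA + hB

theorem tot_mul {T M : Mat} (hT : IsSL T) (hT1 : T ≠ 1) (hM : IsSL M) :
    tot M + 1 ≤ tot (T * M) := by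
  obtain ⟨h1, h2, h3, h4⟩ := mul_entries T M
  unfold tot
  rw [h1, h2, h3, h4]
  unfold IsSL at hT hM
  -- columns of `T`
  have ha : 1 ≤ T 0 0 := by
    rcases Nat.eq_zero_or_pos (T 0 0) with h | h
    · rw [h] at hT; omega
    · exact h
  have hd : 1 ≤ T 1 1 := by
    rcases Nat.eq_zero_or_pos (T 1 1) with h | h
    · rw [h] at hT; omega
    · exact h
  have hma : 1 ≤ M 0 0 := by
    rcases Nat.eq_zero_or_pos (M 0 0) with h | h
    · rw [h] at hM; omega
    · exact h
  have hmd : 1 ≤ M 1 1 := by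
    rcases Nat.eq_zero_or_pos (M 1 1) with h | h
    · rw [h] at hM; omega
    · exact h
  have hbc : 1 ≤ T 0 1 ∨ 1 ≤ T 1 0 := by
    by_contra hcon
    push Not at hcon
    have hb0 : T 0 1 = 0 := by omega
    have hc0 : T 1 0 = 0 := by omega
    rw [hb0, hc0] at hT
    have h1 : T 0 0 = 1 := Nat.eq_one_of_mul_eq_one_right (by simpa using hT)
    have h2 : T 1 1 = 1 := Nat.eq_one_of_mul_eq_one_left (by simpa using hT)
    apply hT1
    ext i j
    fin_cases i <;> fin_cases j <;> simp [h1, h2, hb0, hc0]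
  rcases hbc with h | h
  · nlinarith [Nat.zero_le (M 0 1), Nat.zero_le (M 1 0), Nat.zero_le (T 1 0),
      Nat.mul_le_mul ha (le_refl (M 0 0)), Nat.mul_le_mul ha (le_refl (M 0 1)),
      Nat.mul_le_mul hd (le_refl (M 1 0)), Nat.mul_le_mul hd (le_refl (M 1 1)),
      Nat.mul_le_mul h (le_refl (M 1 0)), Nat.mul_le_mul h (le_refl (M 1 1)),
      Nat.zero_le (T 1 0 * M 0 0), Nat.zero_le (T 1 0 * M 0 1)]
  · nlinarith [Nat.zero_le (M 0 1), Nat.zero_le (M 1 0), Nat.zero_le (T 0 1),
      Nat.mul_le_mul ha (le_refl (M 0 0)), Nat.mul_le_mul ha (le_refl (M 0 1)),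
      Nat.mul_le_mul hd (le_refl (M 1 0)), Nat.mul_le_mul hd (le_refl (M 1 1)),
      Nat.mul_le_mul h (le_refl (M 0 0)), Nat.mul_le_mul h (le_refl (M 0 1)),
      Nat.zero_le (T 0 1 * M 1 0), Nat.zero_le (T 0 1 * M 1 1)]

theorem den_ne {T : Mat} (hT : IsSL T) {z : ℂ} (hz : 0 < z.re) :
    (T 1 0 : ℂ) * z + (T 1 1 : ℂ) ≠ 0 := by
  intro h
  have hre := congrArg Complex.re h
  simp at hre
  have hd : 1 ≤ T 1 1 := by
    unfold IsSL at hT
    rcases Nat.eq_zero_or_pos (T 1 1) with h | h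
    · rw [h] at hT; omega
    · exact h
  have hd' : (1 : ℝ) ≤ (T 1 1 : ℝ) := by exact_mod_cast hd
  have hc' : (0 : ℝ) ≤ (T 1 0 : ℝ) * z.re := by positivity
  linarith

theorem act_one (z : ℂ) : act 1 z = z := by simp [act]

theorem act_mul {A B : Mat} (hA : IsSL A) (hB : IsSL B) {z : ℂ} (hz : 0 < z.re)
    (hz' : 0 < (act B z).re) : act (A * B) z = act A (act B z) := by
  obtain ⟨h1, h2, h3, h4⟩ := mul_entries A B
  have hdB := den_ne hB hz
  have hdAB := den_ne (hA.mul hB) hz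
  have hdA := den_ne hA hz'
  rw [h3, h4] at hdAB
  unfold act at hdA ⊢
  rw [h1, h2, h3, h4]
  push_cast at hdAB ⊢
  rw [div_eq_div_iff hdAB hdA]
  field_simp
  ring

/-- The main estimates. -/
theorem bounds {M : Mat} (hM : IsSL M) {w : ℂ} (hu : 0 < w.re) (hv : 0 < w.im) :
    0 < (act M w).re ∧ 0 < (act M w).im ∧
    (tot M : ℝ) < (act M w).re + (1 + (act M w).re) / (2 * (act M w).im) + 2 := by
  have hden := den_ne hM hu
  obtain ⟨a, ha⟩ : ∃ a : ℝ, a = M 0 0 := ⟨_, rfl⟩
  obtain ⟨b, hb⟩ : ∃ b : ℝ, b = M 0 1 := ⟨_, rfl⟩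
  obtain ⟨c, hc⟩ : ∃ c : ℝ, c = M 1 0 := ⟨_, rfl⟩
  obtain ⟨d, hd⟩ : ∃ d : ℝ, d = M 1 1 := ⟨_, rfl⟩
  obtain ⟨u, hu'⟩ : ∃ u : ℝ, u = w.re := ⟨_, rfl⟩
  obtain ⟨v, hv'⟩ : ∃ v : ℝ, v = w.im := ⟨_, rfl⟩
  have hdet : a * d = b * c + 1 := by
    rw [ha, hb, hc, hd]; exact_mod_cast hM
  have hd1 : 1 ≤ M 1 1 := by
    unfold IsSL at hM
    rcases Nat.eq_zero_or_pos (M 1 1) with h | h
    · rw [h] at hM; omega
    · exact h
  have hd1' : 1 ≤ d := by rw [hd]; exact_mod_cast hd1
  have ha1 : 1 ≤ M 0 0 := by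
    unfold IsSL at hM
    rcases Nat.eq_zero_or_pos (M 0 0) with h | h
    · rw [h] at hM; omega
    · exact h
  have ha1' : 1 ≤ a := by rw [ha]; exact_mod_cast ha1
  have hb0 : 0 ≤ b := by rw [hb]; positivity
  have hc0 : 0 ≤ c := by rw [hc]; positivity
  rw [← hu'] at hu
  rw [← hv'] at hv
  obtain ⟨D, hD⟩ : ∃ D : ℝ, D = (c * u + d) ^ 2 + (c * v) ^ 2 := ⟨_, rfl⟩
  have hDpos : 0 < D := by
    rw [hD]; have : 0 < c * u + d := by positivity
    positivity
  have hre : (act M w).re = ((a * u + b) * (c * u + d) + a * c * v ^ 2) / D := by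
    unfold act
    rw [Complex.div_re]
    simp only [Complex.add_re, Complex.add_im, Complex.mul_re, Complex.mul_im, Complex.natCast_re,
      Complex.natCast_im, Complex.normSq_apply]
    rw [← ha, ← hb, ← hc, ← hd, ← hu', ← hv', hD]
    have h0 : (c * u + d) ^ 2 + (c * v) ^ 2 ≠ 0 := by rw [← hD]; exact hDpos.ne'
    have h1 : (c * u - 0 * v + d) * (c * u - 0 * v + d) + (c * v + 0 * u + 0) * (c * v + 0 * u + 0)
      = (c * u + d) ^ 2 + (c * v) ^ 2 := by ring
    rw [h1, ← add_div]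
    congr 1
    ring
  have him : (act M w).im = v / D := by
    unfold act
    rw [Complex.div_im]
    simp only [Complex.add_re, Complex.add_im, Complex.mul_re, Complex.mul_im, Complex.natCast_re,
      Complex.natCast_im, Complex.normSq_apply]
    rw [← ha, ← hb, ← hc, ← hd, ← hu', ← hv', hD]
    have h1 : (c * u - 0 * v + d) * (c * u - 0 * v + d) + (c * v + 0 * u + 0) * (c * v + 0 * u + 0)
      = (c * u + d) ^ 2 + (c * v) ^ 2 := by ring
    rw [h1, ← sub_div]
    congr 1
    linear_combination v * hdet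
  obtain ⟨x, hx⟩ : ∃ x : ℝ, x = (act M w).re := ⟨_, rfl⟩
  obtain ⟨y, hy⟩ : ∃ y : ℝ, y = (act M w).im := ⟨_, rfl⟩
  rw [← hx, ← hy]
  rw [← hx] at hre
  rw [← hy] at him
  have hxD : x * D = (a * u + b) * (c * u + d) + a * c * v ^ 2 := by
    rw [hre]; field_simp
  have hyD : y * D = v := by rw [him]; field_simp
  have hxpos : 0 < x := by
    rw [hre]; have : 0 < c * u + d := by positivity
    positivity
  have hypos : 0 < y := by rw [him]; positivity
  refine ⟨hxpos, hypos, ?_⟩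
  have htot : (tot M : ℝ) = a + b + c + d := by
    unfold tot; push_cast; rw [ha, hb, hc, hd]
  rw [htot]
  -- `b < d x`
  have hbdx : b < d * x := by
    have : 0 < (d * x - b) * D := by
      have e : (d * x - b) * D = (c * u + d) * u * (a * d - b * c) + c * v ^ 2 * (a * d - b * c) := by
        have : (d * x - b) * D = d * (x * D) - b * D := by ring
        rw [this, hxD, hD]; ring
      rw [e, hdet]
      have : 0 < c * u + d := by positivity
      have h2 : b * c + 1 - b * c = 1 := by ring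
      rw [h2]; positivity
    have := (pos_iff_pos_of_mul_pos this).2 hDpos
    linarith
  have hfrac : 0 < (1 + x) / (2 * y) := by positivity
  rcases Nat.eq_zero_or_pos (M 1 0) with h | h
  · have hc0' : c = 0 := by rw [hc, h]; simp
    have hda : a = 1 ∧ d = 1 := by
      unfold IsSL at hM
      rw [h] at hM
      have h1 : M 0 0 = 1 := Nat.eq_one_of_mul_eq_one_right (by simpa using hM)
      have h2 : M 1 1 = 1 := Nat.eq_one_of_mul_eq_one_left (by simpa using hM)
      exact ⟨by rw [ha, h1]; simp, by rw [hd, h2]; simp⟩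
    rw [hc0', hda.1, hda.2]
    rw [hda.2] at hbdx
    linarith
  · have hc1 : 1 ≤ c := by rw [hc]; exact_mod_cast h
    have h2 : 2 * (c * d) * y < 1 := by
      have : 0 < (1 - 2 * (c * d) * y) * D := by
        have e : (1 - 2 * (c * d) * y) * D = c * u * (c * u + 2 * d) + (d - c * v) ^ 2 := by
          have : (1 - 2 * (c * d) * y) * D = D - 2 * (c * d) * (y * D) := by ring
          rw [this, hyD, hD]; ring
        rw [e]; positivity
      have := (pos_iff_pos_of_mul_pos this).2 hDpos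
      linarith
    have h3 : c * d < 1 / (2 * y) := by
      rw [lt_div_iff₀ (by positivity)]; linarith
    have h4 : c + d < 1 + 1 / (2 * y) := by nlinarith
    have h5 : a < 1 + c * x := by
      have : a * d < 1 + c * (d * x) := by rw [hdet]; nlinarith
      nlinarith
    have h6 : (c + d) * (1 + x) < (1 + 1 / (2 * y)) * (1 + x) :=
      mul_lt_mul_of_pos_right h4 (by positivity)
    have h7 : (1 + 1 / (2 * y)) * (1 + x) = 1 + x + (1 + x) / (2 * y) := by ring
    have h8 : (c + d) * (1 + x) = c + d + c * x + d * x := by ring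
    rw [h7, h8] at h6
    linarith

/-- A point obtained by `n` non-identity matrices comes from one matrix with large entries. -/
theorem desc_matrix {S : Set Mat} (hS : ∀ T ∈ S, IsSL T ∧ T ≠ 1) {w : ℂ} (hu : 0 < w.re)
    (hv : 0 < w.im) : ∀ (n : ℕ) (z : ℂ), Desc S n z w → ∃ M : Mat, IsSL M ∧ n + 2 ≤ tot M ∧
      z = act M w := by
  intro n
  induction n with
  | zero =>
    intro z hz
    refine ⟨1, isSL_one, by simp [tot], ?_⟩
    rw [act_one]; exact hz
  | succ n ih =>
    rintro z ⟨T, hT, v, hz, hd⟩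
    obtain ⟨M, hM, hn, hv'⟩ := ih v hd
    refine ⟨T * M, (hS T hT).1.mul hM, ?_, ?_⟩
    · have := tot_mul (hS T hT).1 (hS T hT).2 hM
      omega
    · rw [act_mul (hS T hT).1 hM hu (bounds hM hu hv).1, ← hv', hz]

/-- **The number of generations.** -/
theorem generations {S : Set Mat} (hS : ∀ T ∈ S, IsSL T ∧ T ≠ 1) {n : ℕ} {z w : ℂ}
    (hu : 0 < w.re) (hv : 0 < w.im) (h : Desc S n z w) :
    (n : ℝ) < z.re + (1 + z.re) / (2 * z.im) := by
  obtain ⟨M, hM, hn, hz⟩ := desc_matrix hS hu hv n z h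
  have := (bounds hM hu hv).2.2
  rw [← hz] at this
  have hn' : (n : ℝ) + 2 ≤ tot M := by exact_mod_cast hn
  linarith

theorem Desc.snoc {S : Set Mat} {T : Mat} (hT : T ∈ S) {v w : ℂ} (hv : v = act T w) :
    ∀ (n : ℕ) (z : ℂ), Desc S n z v → Desc S (n + 1) z w := by
  intro n
  induction n with
  | zero => intro z hz; exact ⟨T, hT, w, by rw [show z = v from hz, hv], rfl⟩
  | succ n ih =>
    rintro z ⟨T', hT', v', hz, hd⟩
    exact ⟨T', hT', v', hz, ih v' hd⟩

/-- **No forest of a left-right pair has a rootless component.**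

(1) For every subfield `K` of `ℂ` not contained in `ℝ` and every left-right pair `(L, R)` of
matrices of `SL₂(ℕ₀)`, no connected component of the forest `𝓕(L, R)` is rootless.

(2) For every set `S` of non-identity matrices of `SL₂(ℕ₀)`: if a point `z` is
`T₁ (T₂ (⋯ Tₙ (w)))` with `T₁, …, Tₙ ∈ S` and `w` in the open first quadrant, then
`n < Re z + (1 + Re z) / (2 Im z)`. -/
theorem result :
    (∀ K : Subfield ℂ, (∃ z ∈ K, z.im ≠ 0) → ∀ L R : Mat, LeftRightPair K L R →
      ∀ C : (forest K L R).ConnectedComponent, ¬ Rootless K L R C) ∧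
    (∀ S : Set Mat, (∀ T ∈ S, IsSL T ∧ T ≠ 1) → ∀ (n : ℕ) (z w : ℂ), 0 < w.re → 0 < w.im →
      Desc S n z w → (n : ℝ) < z.re + (1 + z.re) / (2 * z.im)) := by
  refine ⟨?_, fun S hS n z w hu hv h => generations hS hu hv h⟩
  intro K _ L R hLR C hC
  obtain ⟨z₀, hz₀⟩ : C.supp.Nonempty := C.nonempty_supp
  have hS : ∀ T ∈ ({L, R} : Set Mat), IsSL T ∧ T ≠ 1 := by
    rintro T (rfl | rfl)
    · exact ⟨hLR.slL, hLR.neL⟩
    · exact ⟨hLR.slR, hLR.neR⟩
  have hchain : ∀ n : ℕ, ∃ w ∈ C.supp, Desc {L, R} n (z₀ : ℂ) (w : ℂ) := by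
    intro n
    induction n with
    | zero => exact ⟨z₀, hz₀, rfl⟩
    | succ n ih =>
      obtain ⟨v, hvC, hd⟩ := ih
      have hno := hC v hvC
      unfold Orphan at hno
      push Not at hno
      obtain ⟨w, hw⟩ := hno
      have hwv : w ≠ v := by
        intro hwv
        subst hwv
        -- a vertex is not its own parent
        have key : ∀ m : ℕ, Desc {L, R} m (w : ℂ) (w : ℂ) := by
          intro m
          induction m with
          | zero => rfl
          | succ m ihm =>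
            rcases hw with h | h
            · exact ⟨L, by simp, w, h, ihm⟩
            · exact ⟨R, by simp, w, h, ihm⟩
        obtain ⟨m, hm⟩ := exists_nat_gt ((w : ℂ).re + (1 + (w : ℂ).re) / (2 * (w : ℂ).im))
        have := generations hS w.2.2.1 w.2.2.2 (key m)
        linarith
      refine ⟨w, ?_, ?_⟩
      · have hadj : (forest K L R).Adj w v := by
          rw [forest, SimpleGraph.fromRel_adj]
          exact ⟨hwv, Or.inl hw⟩
        exact C.mem_supp_of_adj_mem_supp hvC hadj.symm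
      · rcases hw with h | h
        · exact Desc.snoc (by simp) h n _ hd
        · exact Desc.snoc (by simp) h n _ hd
  obtain ⟨m, hm⟩ := exists_nat_gt ((z₀ : ℂ).re + (1 + (z₀ : ℂ).re) / (2 * (z₀ : ℂ).im))
  obtain ⟨w, _, hd⟩ := hchain m
  have := generations hS w.2.2.1 w.2.2.2 hd
  linarith

end Pool.Agent.Results.MP_b00f03_nt.NoRootlessTree
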